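import Pool.Agent.H72.EQQ.Targets2

/-!
# Distribution function with a power saving, row PSL: level layers of `pz`
-/

set_option autoImplicit false

open MeasureTheory Set
open scoped ENNReal

namespace Pool.Agent.H86.EQQ.PSL

open Pool.Agent.H72.EQQ
open Pool.Agent.H82.EQ (pz hz)

theorem lint_prod (g : ℝ → ℝ≥0∞) (hg : Measurable g) (n : ℕ) :
    ∫⁻ y : Fin n → ℝ, ∏ l, g (y l) = (∫⁻ t, g t) ^ n := by
  induction n with
  | zero => simp [volume_pi]
  | succ n ih =>
    have e := volume_preserving_piFinSuccAbove (fun _ : Fin (n + 1) => ℝ) 0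
    have h1 : ∀ y : Fin (n + 1) → ℝ, ∏ l, g (y l) =
        (fun p : ℝ × (Fin n → ℝ) => g p.1 * ∏ l, g (p.2 l))
          (MeasurableEquiv.piFinSuccAbove (fun _ : Fin (n + 1) => ℝ) 0 y) := by
      intro y
      rw [Fin.prod_univ_succ]
      rfl
    have hm2 : Measurable fun y : Fin n → ℝ => ∏ l, g (y l) :=
      Finset.measurable_fun_prod _ fun l _ => hg.comp (measurable_pi_apply l)
    have hm : Measurable fun p : ℝ × (Fin n → ℝ) => g p.1 * ∏ l, g (p.2 l) :=
      (hg.comp measurable_fst).mul (hm2.comp measurable_snd)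
    rw [lintegral_congr h1, e.lintegral_comp hm, Measure.volume_eq_prod,
      lintegral_prod_mul hg.aemeasurable hm2.aemeasurable, ih, pow_succ']

/-- the one sided function -/
noncomputable def h1 (t : ℝ) : ℝ := (Ioc (0 : ℝ) 1).indicator (fun t => t ^ (-(1 / 2) : ℝ)) t

/-- `|t| ^ (-1/2)` on `[-1, 1]` -/
noncomputable def u (t : ℝ) : ℝ := h1 t + h1 (-t)

theorem h1_meas : Measurable h1 :=
  (measurable_id.pow_const _).indicator measurableSet_Ioc

theorem u_meas : Measurable u := h1_meas.add (h1_meas.comp measurable_neg)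

theorem h1_int : Integrable h1 := by
  unfold h1
  rw [integrable_indicator_iff measurableSet_Ioc]
  exact (intervalIntegral.intervalIntegrable_rpow' (a := 0) (b := 1)
    (by norm_num : (-1 : ℝ) < -(1 / 2))).1

theorem u_int : Integrable u := h1_int.add h1_int.comp_neg

theorem u_eq {t : ℝ} (h0 : t ≠ 0) (h : |t| ≤ 1) : u t = |t| ^ (-(1 / 2) : ℝ) := by
  unfold u h1
  rcases lt_or_gt_of_ne h0 with h2 | h2
  · rw [abs_of_neg h2] at h ⊢
    rw [indicator_of_notMem (fun h3 => absurd h3.1 (by linarith)),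
      indicator_of_mem (show -t ∈ Ioc (0 : ℝ) 1 from ⟨by linarith, h⟩), zero_add]
  · rw [abs_of_pos h2] at h ⊢
    rw [indicator_of_mem (show t ∈ Ioc (0 : ℝ) 1 from ⟨h2, h⟩),
      indicator_of_notMem (fun h3 => absurd h3.1 (by linarith)), add_zero]

theorem pf_PSL (hQ : T_QSL) : T_PSL := by
  intro k hk
  obtain ⟨n, rfl⟩ : ∃ n, k = n + 1 := ⟨k - 1, by omega⟩
  have hn : 1 ≤ n := by omega
  set G : ℝ≥0∞ := ∫⁻ t, ENNReal.ofReal (u t) with hG
  have hGt : G ≠ ⊤ := u_int.lintegral_lt_top.ne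
  refine ⟨8 * G.toReal ^ n + 1, by positivity, ?_⟩
  intro i w δ hδ
  have : Nontrivial (Fin (n + 1)) := Fin.nontrivial_iff_two_le.2 (by omega)
  obtain ⟨j, hj⟩ := exists_ne i
  obtain ⟨i', hi'⟩ := Fin.exists_succAbove_eq hj.symm
  -- the set of pairs
  set S : Set (ℝ × (Fin n → ℝ)) := {p | |p.1| ≤ 1 ∧ (∀ l, |p.2 l| ≤ 1) ∧
    |(|(p.1 * ∏ l, p.2 l) * (p.1 + ∑ l, p.2 l)|) - w * |p.2 i'| ^ (n + 1 + 1)| ≤ δ} with hS
  have hSm : MeasurableSet S := by
    have h1 : MeasurableSet {p : ℝ × (Fin n → ℝ) | |p.1| ≤ 1} :=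
      measurableSet_le (by fun_prop) measurable_const
    have h2 : MeasurableSet {p : ℝ × (Fin n → ℝ) | ∀ l, |p.2 l| ≤ 1} := by
      rw [setOf_forall]
      exact MeasurableSet.iInter fun l => measurableSet_le (by fun_prop) measurable_const
    have h3 : MeasurableSet {p : ℝ × (Fin n → ℝ) |
        |(|(p.1 * ∏ l, p.2 l) * (p.1 + ∑ l, p.2 l)|) - w * |p.2 i'| ^ (n + 1 + 1)| ≤ δ} :=
      measurableSet_le (by fun_prop) measurable_const
    exact h1.inter (h2.inter h3)
  have e := volume_preserving_piFinSuccAbove (fun _ : Fin (n + 1) => ℝ) j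
  have hpre : {z : Fin (n + 1) → ℝ | (∀ l, |z l| ≤ 1) ∧
      |pz z - w * |z i| ^ (n + 1 + 1)| ≤ δ} =
      (MeasurableEquiv.piFinSuccAbove (fun _ : Fin (n + 1) => ℝ) j) ⁻¹' S := by
    ext z
    have e1 : pz z = |(z j * ∏ l, z (j.succAbove l)) * (z j + ∑ l, z (j.succAbove l))| := by
      unfold pz
      rw [Fin.prod_univ_succAbove z j, Fin.sum_univ_succAbove z j]
    have e2 : ((MeasurableEquiv.piFinSuccAbove (fun _ : Fin (n + 1) => ℝ) j) z) =
        (z j, fun l => z (j.succAbove l)) := rfl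
    rw [mem_preimage, e2]
    simp only [hS, mem_setOf_eq]
    rw [e1, ← hi']
    constructor
    · rintro ⟨a1, a2⟩
      exact ⟨a1 j, fun l => a1 _, a2⟩
    · rintro ⟨a1, a2, a3⟩
      refine ⟨fun l => ?_, a3⟩
      by_cases hl : l = j
      · rw [hl]; exact a1
      · obtain ⟨l', hl'⟩ := Fin.exists_succAbove_eq hl
        rw [← hl']; exact a2 l'
  rw [hpre, e.measure_preimage hSm.nullMeasurableSet, Measure.volume_eq_prod,
    Measure.prod_apply_symm hSm]
  -- the slices
  have hae : ∀ᵐ y : Fin n → ℝ, ∀ l, y l ≠ 0 := by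
    rw [ae_all_iff]
    intro l
    have h1 : volume {y : Fin n → ℝ | y l = 0} = 0 := by
      rw [volume_pi]
      exact Measure.pi_hyperplane (fun _ => volume) l 0
    rw [ae_iff]
    simpa using h1
  have hsl : ∀ᵐ y : Fin n → ℝ, volume ((fun x : ℝ => (x, y)) ⁻¹' S) ≤
      ENNReal.ofReal (8 * Real.sqrt δ) * ∏ l, ENNReal.ofReal (u (y l)) := by
    filter_upwards [hae] with y hy
    by_cases hb : ∀ l, |y l| ≤ 1
    · set Q : ℝ := ∏ l, y l with hQd
      have hQ0 : Q ≠ 0 := Finset.prod_ne_zero_iff.2 fun l _ => hy l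
      set c : ℝ := w * |y i'| ^ (n + 1 + 1) with hc
      have hsub : (fun x : ℝ => (x, y)) ⁻¹' S ⊆
          {x : ℝ | |Q * x ^ 2 + (Q * ∑ l, y l) * x + (-c)| ≤ δ} ∪
          {x : ℝ | |Q * x ^ 2 + (Q * ∑ l, y l) * x + c| ≤ δ} := by
        intro x hx
        have h3 : |(|(x * Q) * (x + ∑ l, y l)|) - c| ≤ δ := hx.2.2
        have h4 : (x * Q) * (x + ∑ l, y l) = Q * x ^ 2 + (Q * ∑ l, y l) * x := by ring
        rw [h4] at h3
        rcases le_or_gt 0 (Q * x ^ 2 + (Q * ∑ l, y l) * x) with h5 | h5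
        · left
          rw [abs_of_nonneg h5] at h3
          exact h3
        · right
          rw [abs_of_neg h5] at h3
          have h6 : -(Q * x ^ 2 + (Q * ∑ l, y l) * x) - c =
              -(Q * x ^ 2 + (Q * ∑ l, y l) * x + c) := by ring
          rw [h6, abs_neg] at h3
          exact h3
      have h7 : Real.sqrt (δ / |Q|) = Real.sqrt δ * ∏ l, |y l| ^ (-(1 / 2) : ℝ) := by
        rw [Real.finset_prod_rpow _ _ (fun l _ => abs_nonneg _), ← Finset.abs_prod, ← hQd,
          Real.rpow_neg (abs_nonneg _), ← Real.sqrt_eq_rpow, Real.sqrt_div hδ.le, div_eq_mul_inv]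
      have h8 : ∏ l, ENNReal.ofReal (u (y l)) =
          ENNReal.ofReal (∏ l, |y l| ^ (-(1 / 2) : ℝ)) := by
        rw [ENNReal.ofReal_prod_of_nonneg (fun l _ => Real.rpow_nonneg (abs_nonneg _) _)]
        exact Finset.prod_congr rfl fun l _ => by rw [u_eq (hy l) (hb l)]
      calc volume ((fun x : ℝ => (x, y)) ⁻¹' S) ≤ _ := measure_mono hsub
        _ ≤ _ := measure_union_le _ _
        _ ≤ ENNReal.ofReal (4 * Real.sqrt (δ / |Q|)) + ENNReal.ofReal (4 * Real.sqrt (δ / |Q|)) :=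
            add_le_add (hQ _ _ _ _ hQ0 hδ) (hQ _ _ _ _ hQ0 hδ)
        _ = ENNReal.ofReal (8 * Real.sqrt δ) * ∏ l, ENNReal.ofReal (u (y l)) := by
            rw [h8, ← ENNReal.ofReal_mul (by positivity), ← ENNReal.ofReal_add (by positivity)
              (by positivity), h7]
            congr 1
            ring
    · have h2 : (fun x : ℝ => (x, y)) ⁻¹' S = ∅ := by
        rw [eq_empty_iff_forall_notMem]
        intro x hx
        exact hb hx.2.1
      rw [h2, measure_empty]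
      exact zero_le
  calc ∫⁻ y : Fin n → ℝ, volume ((fun x : ℝ => (x, y)) ⁻¹' S) ≤
        ∫⁻ y : Fin n → ℝ, ENNReal.ofReal (8 * Real.sqrt δ) *
          ∏ l, ENNReal.ofReal (u (y l)) := lintegral_mono_ae hsl
    _ = ENNReal.ofReal (8 * Real.sqrt δ) * G ^ n := by
        rw [lintegral_const_mul' _ _ ENNReal.ofReal_ne_top,
          lint_prod (fun t => ENNReal.ofReal (u t)) (ENNReal.measurable_ofReal.comp u_meas)]
    _ = ENNReal.ofReal (8 * G.toReal ^ n * Real.sqrt δ) := by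
        have h1 : G ^ n = ENNReal.ofReal (G.toReal ^ n) := by
          rw [ENNReal.ofReal_pow ENNReal.toReal_nonneg, ENNReal.ofReal_toReal hGt]
        rw [h1, ← ENNReal.ofReal_mul (by positivity)]
        congr 1
        ring
    _ ≤ ENNReal.ofReal ((8 * G.toReal ^ n + 1) * Real.sqrt δ) := by
        apply ENNReal.ofReal_le_ofReal
        have h2 : 0 ≤ Real.sqrt δ := Real.sqrt_nonneg _
        nlinarith

end Pool.Agent.H86.EQQ.PSL
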