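import Pool.Agent.H72.EQQ.Targets
import Pool.Agent.H86.EQ.LPR

/-!
# Equidistribution with a power saving, row BDC: vectors which are bad at all primes dividing `m`
-/

set_option autoImplicit false

open Finset

namespace Pool.Agent.H86.EQQ.BDC

open Pool.Agent.H71.EQ Pool.Agent.H72.EQQ
open Pool.Agent.H86.EQ.LPR (BS box)

/-- the exponent of the prime at the place `i` -/
def tt {k : ℕ} (a b i : Fin (k + 1)) : ℕ :=
  if a = b then (if i = a then 2 else 0) else (if i = a ∨ i = b then 1 else 0)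

theorem tt_sum {k : ℕ} (a b : Fin (k + 1)) : ∑ i, tt a b i = 2 := by
  by_cases h : a = b
  · have h1 : ∀ i ∈ (univ : Finset (Fin (k + 1))), tt a b i = if i = a then 2 else 0 := by
      intro i _
      unfold tt
      rw [if_pos h]
    rw [Finset.sum_congr rfl h1, Finset.sum_ite_eq' univ a (fun _ => 2), if_pos (Finset.mem_univ _)]
  · have h1 : ∀ i ∈ (univ : Finset (Fin (k + 1))), tt a b i =
        (if i = a then 1 else 0) + (if i = b then 1 else 0) := by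
      intro i _
      unfold tt
      rw [if_neg h]
      by_cases hia : i = a
      · have hib : i ≠ b := fun h' => h (hia.symm.trans h')
        simp [hia, h]
      · by_cases hib : i = b
        · simp [hib, Ne.symm h]
        · simp [hia, hib]
    rw [Finset.sum_congr rfl h1, Finset.sum_add_distrib,
      Finset.sum_ite_eq' univ a (fun _ => 1), Finset.sum_ite_eq' univ b (fun _ => 1),
      if_pos (Finset.mem_univ _), if_pos (Finset.mem_univ _)]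

theorem viol {k : ℕ} (p : ℕ) (v : Fin k → ℤ) (h : ¬ Loc p 0 (Pool.Agent.H71.EQ.ext v)) :
    ∃ ab : Fin (k + 1) × Fin (k + 1), ∀ i,
      (p : ℤ) ^ tt ab.1 ab.2 i ∣ Pool.Agent.H71.EQ.ext v i := by
  unfold Loc at h
  rw [if_pos rfl, not_and_or] at h
  rcases h with h | h
  · push Not at h
    obtain ⟨a, b, hab, h1, h2⟩ := h
    refine ⟨(a, b), fun i => ?_⟩
    unfold tt
    simp only
    rw [if_neg hab]
    by_cases hi : i = a ∨ i = b
    · rw [if_pos hi, pow_one]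
      rcases hi with h | h
      · rw [h]; exact h1
      · rw [h]; exact h2
    · rw [if_neg hi]; simp
  · push Not at h
    obtain ⟨a, ha⟩ := h
    refine ⟨(a, a), fun i => ?_⟩
    unfold tt
    simp only
    rw [if_pos trivial]
    by_cases hi : i = a
    · rw [if_pos hi, hi]; exact ha
    · rw [if_neg hi]; simp

/-- the divisor at the place `i` -/
def ee {k m : ℕ} (φ : {p // p ∈ m.primeFactors} → Fin (k + 1) × Fin (k + 1)) (i : Fin (k + 1)) :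
    ℕ := ∏ p : {p // p ∈ m.primeFactors}, (p : ℕ) ^ tt (φ p).1 (φ p).2 i

theorem ee_pos {k m : ℕ} (φ : {p // p ∈ m.primeFactors} → Fin (k + 1) × Fin (k + 1))
    (i : Fin (k + 1)) : 1 ≤ ee φ i := by
  unfold ee
  exact Nat.one_le_iff_ne_zero.2 (Finset.prod_ne_zero_iff.2 fun p _ =>
    pow_ne_zero _ (Nat.prime_of_mem_primeFactors p.2).ne_zero)

theorem ee_prod {k m : ℕ} (hm : Squarefree m)
    (φ : {p // p ∈ m.primeFactors} → Fin (k + 1) × Fin (k + 1)) : ∏ i, ee φ i = m ^ 2 := by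
  unfold ee
  rw [Finset.prod_comm]
  have h1 : ∀ p ∈ (univ : Finset {p // p ∈ m.primeFactors}),
      ∏ i, (p : ℕ) ^ tt (φ p).1 (φ p).2 i = (p : ℕ) ^ 2 := by
    intro p _
    rw [Finset.prod_pow_eq_pow_sum, tt_sum]
  rw [Finset.prod_congr rfl h1, Finset.prod_pow]
  congr 1
  rw [Finset.prod_coe_sort m.primeFactors (fun p => p)]
  exact Nat.prod_primeFactors_of_squarefree hm

theorem ee_dvd {k m : ℕ} (φ : {p // p ∈ m.primeFactors} → Fin (k + 1) × Fin (k + 1))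
    (i : Fin (k + 1)) (z : ℤ) (h : ∀ p : {p // p ∈ m.primeFactors},
      ((p : ℕ) : ℤ) ^ tt (φ p).1 (φ p).2 i ∣ z) : ((ee φ i : ℕ) : ℤ) ∣ z := by
  unfold ee
  push_cast
  apply Finset.prod_dvd_of_coprime
  · intro p _ q _ hpq
    have h1 : Nat.Coprime (p : ℕ) (q : ℕ) :=
      (Nat.coprime_primes (Nat.prime_of_mem_primeFactors p.2)
        (Nat.prime_of_mem_primeFactors q.2)).2 fun h' => hpq (Subtype.ext h')
    exact (Nat.isCoprime_iff_coprime.2 h1).pow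
  · intro p _
    exact h p

/-- the vectors with the divisors `ee φ i` -/
def VB (k m : ℕ) (φ : {p // p ∈ m.primeFactors} → Fin (k + 1) × Fin (k + 1)) (R : ℝ) :
    Set (Fin k → ℤ) :=
  {v | ∀ i, Pool.Agent.H71.EQ.ext v i ≠ 0 ∧ |(Pool.Agent.H71.EQ.ext v i : ℝ)| ≤ R ∧
    ((ee φ i : ℕ) : ℤ) ∣ Pool.Agent.H71.EQ.ext v i}

theorem vb_card {k m : ℕ} (hk : 2 ≤ k) (hm : Squarefree m)
    (φ : {p // p ∈ m.primeFactors} → Fin (k + 1) × Fin (k + 1)) (R : ℝ) (hR : 1 ≤ R) :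
    (VB k m φ R).Finite ∧
      ((VB k m φ R).ncard : ℝ) ≤ (2 * R) ^ k * (m : ℝ) ^ (-(4 / 3) : ℝ) := by
  have hR0 : 0 ≤ R := by linarith
  have hm1 : 1 ≤ m := Nat.one_le_iff_ne_zero.2 hm.ne_zero
  have hm0 : (0 : ℝ) < m := by exact_mod_cast hm1
  obtain ⟨c, -, hc⟩ := Finset.exists_min_image (univ : Finset (Fin (k + 1))) (ee φ)
    ⟨0, Finset.mem_univ _⟩
  obtain ⟨hf, hb⟩ := box c (ee φ) (ee_pos φ) R hR0
  have hsub : VB k m φ R ⊆ BS k c (ee φ) R := fun v hv i _ => hv i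
  refine ⟨hf.subset hsub, ?_⟩
  have h1 : ((VB k m φ R).ncard : ℝ) ≤ ((BS k c (ee φ) R).ncard : ℝ) := by
    exact_mod_cast Set.ncard_le_ncard hsub hf
  refine h1.trans (hb.trans ?_)
  have hP : (∏ i ∈ univ.erase c, (ee φ i : ℝ)) * (ee φ c : ℝ) = (m : ℝ) ^ 2 := by
    have h2 := Finset.prod_erase_mul (univ : Finset (Fin (k + 1))) (fun i => ee φ i)
      (Finset.mem_univ c)
    rw [ee_prod hm] at h2
    exact_mod_cast h2
  have hc0 : (0 : ℝ) < (ee φ c : ℝ) := by exact_mod_cast ee_pos φ c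
  have hcm : (ee φ c : ℝ) ≤ (m : ℝ) ^ (2 / 3 : ℝ) := by
    have h2 : ee φ c ^ (k + 1) ≤ m ^ 2 := by
      rw [← ee_prod hm φ]
      calc ee φ c ^ (k + 1) = ∏ _i : Fin (k + 1), ee φ c := by
            rw [Finset.prod_const, Finset.card_univ, Fintype.card_fin]
        _ ≤ ∏ i, ee φ i := Finset.prod_le_prod (fun i _ => Nat.zero_le _)
            fun i hi => hc i hi
    have h3 : ee φ c ^ 3 ≤ m ^ 2 :=
      (Nat.pow_le_pow_right (ee_pos φ c) (by omega)).trans h2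
    have h4 : (ee φ c : ℝ) ^ 3 ≤ (m : ℝ) ^ 2 := by exact_mod_cast h3
    have h5 : ((ee φ c : ℝ) ^ 3) ^ (1 / 3 : ℝ) ≤ ((m : ℝ) ^ 2) ^ (1 / 3 : ℝ) :=
      Real.rpow_le_rpow (by positivity) h4 (by norm_num)
    have h6 : ((ee φ c : ℝ) ^ 3) ^ (1 / 3 : ℝ) = (ee φ c : ℝ) := by
      rw [← Real.rpow_natCast, ← Real.rpow_mul hc0.le]
      norm_num
    have h7 : ((m : ℝ) ^ 2) ^ (1 / 3 : ℝ) = (m : ℝ) ^ (2 / 3 : ℝ) := by
      rw [← Real.rpow_natCast, ← Real.rpow_mul hm0.le]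
      norm_num
    rw [h6, h7] at h5
    exact h5
  have hE0 : 0 < ∏ i ∈ univ.erase c, (ee φ i : ℝ) :=
    Finset.prod_pos fun i _ => by exact_mod_cast ee_pos φ i
  rw [Finset.prod_div_distrib, Finset.prod_const, Finset.card_erase_of_mem (Finset.mem_univ _),
    Finset.card_univ, Fintype.card_fin, Nat.add_sub_cancel, div_eq_mul_inv]
  apply mul_le_mul_of_nonneg_left _ (by positivity)
  rw [inv_le_iff_one_le_mul₀ hE0]
  -- `1 ≤ m ^ (-4/3) * E`
  have h8 : (m : ℝ) ^ (-(4 / 3) : ℝ) * (m : ℝ) ^ (-(2 / 3) : ℝ) * (m : ℝ) ^ 2 = 1 := by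
    rw [← Real.rpow_add hm0, ← Real.rpow_natCast, ← Real.rpow_add hm0]
    norm_num
  have h9 : (m : ℝ) ^ (-(2 / 3) : ℝ) * (m : ℝ) ^ (2 / 3 : ℝ) = 1 := by
    rw [← Real.rpow_add hm0]
    norm_num
  have h10 : 0 < (m : ℝ) ^ (-(4 / 3) : ℝ) := Real.rpow_pos_of_pos hm0 _
  have h11 : 0 < (m : ℝ) ^ (-(2 / 3) : ℝ) := Real.rpow_pos_of_pos hm0 _
  calc (1 : ℝ) = (m : ℝ) ^ (-(4 / 3) : ℝ) * (m : ℝ) ^ (-(2 / 3) : ℝ) * (m : ℝ) ^ 2 := h8.symm
    _ = (m : ℝ) ^ (-(4 / 3) : ℝ) * ((∏ i ∈ univ.erase c, (ee φ i : ℝ)) *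
        ((m : ℝ) ^ (-(2 / 3) : ℝ) * (ee φ c : ℝ))) := by rw [← hP]; ring
    _ ≤ (m : ℝ) ^ (-(4 / 3) : ℝ) * ((∏ i ∈ univ.erase c, (ee φ i : ℝ)) *
        ((m : ℝ) ^ (-(2 / 3) : ℝ) * (m : ℝ) ^ (2 / 3 : ℝ))) := by
        apply mul_le_mul_of_nonneg_left _ h10.le
        apply mul_le_mul_of_nonneg_left _ hE0.le
        exact mul_le_mul_of_nonneg_left hcm h11.le
    _ = (m : ℝ) ^ (-(4 / 3) : ℝ) * ∏ i ∈ univ.erase c, (ee φ i : ℝ) := by rw [h9, mul_one]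

theorem pf_BDC : T_BDC := by
  intro k m R hk hm hR
  have hm1 : 1 ≤ m := Nat.one_le_iff_ne_zero.2 hm.ne_zero
  classical
  set S : Set (Fin k → ℤ) := {v : Fin k → ℤ | (∀ i, Pool.Agent.H71.EQ.ext v i ≠ 0 ∧
    |(Pool.Agent.H71.EQ.ext v i : ℝ)| ≤ R) ∧
    ∀ p : ℕ, p.Prime → p ∣ m → ¬ Loc p 0 (Pool.Agent.H71.EQ.ext v)} with hS
  have hsub : S ⊆ ⋃ φ ∈ (univ : Finset ({p // p ∈ m.primeFactors} → Fin (k + 1) × Fin (k + 1))),
      VB k m φ R := by
    intro v hv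
    obtain ⟨hv1, hv2⟩ := hv
    have h1 : ∀ p : {p // p ∈ m.primeFactors}, ∃ ab : Fin (k + 1) × Fin (k + 1), ∀ i,
        ((p : ℕ) : ℤ) ^ tt ab.1 ab.2 i ∣ Pool.Agent.H71.EQ.ext v i := fun p =>
      viol p.1 v (hv2 p.1 (Nat.prime_of_mem_primeFactors p.2) (Nat.dvd_of_mem_primeFactors p.2))
    choose φ hφ using h1
    rw [Set.mem_iUnion₂]
    refine ⟨φ, Finset.mem_univ _, fun i => ⟨(hv1 i).1, (hv1 i).2, ?_⟩⟩
    exact ee_dvd φ i _ fun p => hφ p i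
  have hfin : (⋃ φ ∈ (univ : Finset ({p // p ∈ m.primeFactors} → Fin (k + 1) × Fin (k + 1))),
      VB k m φ R).Finite :=
    Set.Finite.biUnion (Finset.finite_toSet _) fun φ _ => (vb_card hk hm φ R hR).1
  refine ⟨hfin.subset hsub, ?_⟩
  have h1 : (S.ncard : ℝ) ≤ ((⋃ φ ∈ (univ : Finset ({p // p ∈ m.primeFactors} →
      Fin (k + 1) × Fin (k + 1))), VB k m φ R).ncard : ℝ) := by
    exact_mod_cast Set.ncard_le_ncard hsub hfin
  have h2 : ((⋃ φ ∈ (univ : Finset ({p // p ∈ m.primeFactors} →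
      Fin (k + 1) × Fin (k + 1))), VB k m φ R).ncard : ℝ) ≤
      ∑ φ : {p // p ∈ m.primeFactors} → Fin (k + 1) × Fin (k + 1),
        ((VB k m φ R).ncard : ℝ) := by
    have h3 := Finset.set_ncard_biUnion_le (univ : Finset ({p // p ∈ m.primeFactors} →
      Fin (k + 1) × Fin (k + 1))) fun φ => VB k m φ R
    exact_mod_cast h3
  have h3 : ∑ φ : {p // p ∈ m.primeFactors} → Fin (k + 1) × Fin (k + 1),
        ((VB k m φ R).ncard : ℝ) ≤
      ∑ _φ : {p // p ∈ m.primeFactors} → Fin (k + 1) × Fin (k + 1),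
        (2 * R) ^ k * (m : ℝ) ^ (-(4 / 3) : ℝ) :=
    Finset.sum_le_sum fun φ _ => (vb_card hk hm φ R hR).2
  refine h1.trans (h2.trans (h3.trans (le_of_eq ?_)))
  rw [Finset.sum_const, Finset.card_univ, Fintype.card_fun, Fintype.card_prod, Fintype.card_fin,
    Fintype.card_coe, nsmul_eq_mul, pow_mul]
  push_cast
  ring

end Pool.Agent.H86.EQQ.BDC
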